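import Pool.Agent.Lead.Orb

namespace Pool.Agent.Results.MP_4a1002_ag.Counterexample

open Pool.Agent.Lead.Orb

universe u v

theorem result (K : Type u) [Field K] [IsAlgClosed K] [CharZero K] :
    ∃ (n : ℕ) (G : Subgroup (GL (Fin n) K)) (H : Subgroup G),
      IsAlgebraicGroup G ∧
      (∀ U V : Set G, ZOpen G U → ZOpen G V → U.Nonempty → V.Nonempty → (U ∩ V).Nonempty) ∧
      (∀ h ∈ H, IsNilpotent (((h : GL (Fin n) K) : Matrix (Fin n) (Fin n) K) - 1)) ∧
      (∀ a ∈ H, ∀ b ∈ H, a * b = b * a) ∧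
      (∀ H' : Subgroup G, (∀ a ∈ H', ∀ b ∈ H', a * b = b * a) → H ≤ H' → H' = H) ∧
      ∀ (X : Type v) [TopologicalSpace X] [IrreducibleSpace X] [MulAction G X],
        (∀ g : G, (∀ x : X, g • x = x) → g = 1) →
        (∀ g : G, IsClosed {x : X | g • x = x}) →
        (∀ (x : X) (U : Set X), IsOpen U → ZOpen G {g | g • x ∈ U}) →
        ∀ x : X, ¬ IsOpen (MulAction.orbit H x) :=
  ⟨7, GG K, HH K, G_alg, G_irr, H_unip, H_comm, H_max, fun X _ _ _ => no_open X⟩

end Pool.Agent.Results.MP_4a1002_ag.Counterexample
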